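import Pool.Agent.THS.StmtsT

/-!
# THS, row LIN (helper86): entire functions with `f ^ M = C k ^ M`
-/

set_option autoImplicit false

open Set Filter Topology

namespace Pool.Agent.THS.H86

theorem lin : LinStatement := by
  intro f k M C hM hf hk hk0 hC
  -- near `0` the quotient is locally constant
  have hopen : IsOpen {t : ℂ | k t ≠ 0} := isOpen_ne_fun hk.continuous continuous_const
  obtain ⟨r, hr, hball⟩ := Metric.isOpen_iff.1 hopen 0 hk0
  have hT : ({z : ℂ | z ^ M = C} : Set ℂ).Finite := by
    refine (Polynomial.nthRoots M C).toFinset.finite_toSet.subset ?_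
    intro z hz
    simp only [Finset.mem_coe, Multiset.mem_toFinset, Polynomial.mem_nthRoots hM]
    exact hz
  have hq : ContinuousOn (fun t => f t / k t) (Metric.ball (0 : ℂ) r) := fun t ht =>
    (hf.continuous.continuousAt.div hk.continuous.continuousAt (hball ht)).continuousWithinAt
  have hmaps : MapsTo (fun t => f t / k t) (Metric.ball (0 : ℂ) r) {z : ℂ | z ^ M = C} := by
    intro t ht
    have h1 : k t ≠ 0 := hball ht
    show (f t / k t) ^ M = C
    rw [div_pow, hC t h1, mul_div_assoc, div_self (pow_ne_zero _ h1), mul_one]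
  have hconst : ∀ t ∈ Metric.ball (0 : ℂ) r, f t / k t = f 0 / k 0 := fun t ht =>
    (Metric.isPreconnected_ball).constant_of_mapsTo hT.isDiscrete hq hmaps ht
      (Metric.mem_ball_self hr)
  have hev : f =ᶠ[𝓝 (0 : ℂ)] fun t => f 0 / k 0 * k t := by
    filter_upwards [Metric.ball_mem_nhds (0 : ℂ) hr] with t ht
    rw [← hconst t ht, div_mul_cancel₀ _ (hball ht)]
  have h1 : AnalyticOnNhd ℂ f univ := fun t _ => hf.analyticAt t
  have h2 : AnalyticOnNhd ℂ (fun t => f 0 / k 0 * k t) univ := fun t _ =>
    (hk.const_mul (f 0 / k 0)).analyticAt t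
  intro t
  exact congrFun (h1.eq_of_eventuallyEq h2 hev) t

end Pool.Agent.THS.H86
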